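import Mathlib
import Pool.Agent.H79.FC.Roles
import Pool.Graph.R_pool_sql_team_seeded_efc1946e.K1H94.Q.Top

/-!
# The Fermat-Catalan equation: two exponents with a common odd prime divisor (first case)

Let `g` be an odd prime dividing the exponents of two bases `x`, `z` of a solution and not dividing
the third base `y`, and let `N ≥ 3` be an odd divisor, prime to `g`, of the exponent of `y`. For all
but finitely many value triples, the part of the term `x ^ e` composed of the primes `p` with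
`gcd (N, p (p - 1)) > 1` is larger than `H ^ (1 / 2 - 1 / N - ε)`, where `H` is the largest term
(`H ^ (1 / 9 - ε)` for `N = 3`). The bases, the exponents, `g` and `N` are all free and unbounded.

Proof. Write the equation as `Z ^ g = X ^ g + Y ^ N`, `X ^ g = ± x ^ e`. As `g` does not divide `y`,
`Z - X = u ^ N`. Let `M` be the part of `X` composed of the other primes. Modulo powers of `M` the
`N`-th root of a unit is unique, and so `Y` is near the value of `u ^ r Z ^ q (1 + X / u ^ N) ^ (r / N)`,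
`g = q N + r`, both modulo `M ^ g` and, if `X` is small compared with `Z`, over the reals. Padé
approximants of `(1 + t) ^ (r / N)` give two nonzero determinants of which one leads to an integer
which is too small for its divisor `M ^ (2 j + 1)`; this bounds `T = max (|X|, |u| ^ N)` by a fixed power
of `N`. For large `N` this leaves `u = ± 1`, which is excluded by linear forms in two logarithms modulo
`M ^ g` (all numbers are `1` modulo `M`, so that the estimate does not depend on `M`). Hence `T` is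
bounded absolutely, and there are finitely many value triples for given `|X|`, `|Z|` by the theorem of
Ridout (`GivenBaseFinite` of the library).
-/

set_option autoImplicit false

namespace Pool.Agent.Results.MP_2738db_nt.FirstCaseBadParts

open Pool.Agent.H79.FC

/-- The value triples of the solutions for which the bad part of the term `x ^ e` is small. -/
def Values (ε : ℝ) : Set (ℕ × ℕ × ℕ) :=
  {v | ∃ a b c m n k x e y f z h g N : ℕ, IsSolution a b c m n k ∧
    Roles a b c m n k x e y f z h g N ∧ v = (a ^ m, b ^ n, c ^ k) ∧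
    (badPart N (x ^ e) : ℝ) ≤ ((c ^ k : ℕ) : ℝ) ^ (expo N - ε)}

theorem natAbs_unit {s : ℤ} (hs : s = 1 ∨ s = -1) (x : ℕ) : (s * (x : ℤ)).natAbs = x := by
  rcases hs with rfl | rfl <;> simp

theorem abs_unit {s : ℤ} (hs : s = 1 ∨ s = -1) (x : ℕ) : |((s * (x : ℤ) : ℤ) : ℝ)| = (x : ℝ) := by
  rcases hs with rfl | rfl <;> simp

theorem result (ε : ℝ) (hε : 0 < ε) : (Values ε).Finite := by
  obtain ⟨T₀, hT₀⟩ := bound hε
  set F : ℕ → ℕ → Set (ℕ × ℕ × ℕ) := fun α β =>
    {v : ℕ × ℕ × ℕ | v.1 + v.2.1 = v.2.2 ∧ ∃ b c m n k : ℕ, 1 ≤ b ∧ 1 ≤ c ∧ 1 ≤ m ∧ 1 ≤ n ∧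
      1 < (1 : ℝ) * k ∧ Nat.Coprime α b ∧ Nat.Coprime α c ∧ Nat.Coprime b c ∧
      ((b ^ n : ℕ) : ℝ) ≤ (Pool.Agent.K1H94.P.sPart β.primeFactors (b ^ n) : ℝ) *
        (v.2.2 : ℝ) ^ ((1 : ℝ) - 1) ∧
      ({v.1, v.2.1, v.2.2} : Multiset ℕ) = {α ^ m, b ^ n, c ^ k}} with hF
  have hfin : (⋃ α ∈ Set.Icc 1 T₀, ⋃ β ∈ Set.Icc 1 T₀, F α β).Finite := by
    apply Set.Finite.biUnion (Set.finite_Icc 1 T₀)
    intro α hα
    apply Set.Finite.biUnion (Set.finite_Icc 1 T₀)
    intro β _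
    exact Pool.Agent.K1H94.Q.top_finite 1 one_pos le_rfl α hα.1 β.primeFactors
      (fun p hp => Nat.prime_of_mem_primeFactors hp)
  refine hfin.subset ?_
  rintro v ⟨a, b, c, m, n, k, x, e, y, f, z, h, g, N, hs, hr, hv, hbad⟩
  obtain ⟨hx, hy, hz, hxy, hxz, hzy, he, hf, hh, hmul, ⟨hle1, hle2, hle3⟩, s, t, hs1, ht1, hyp, -⟩ :=
    hyp_of_roles hs hr
  obtain ⟨-, hg, hg2, hge, hgh, hgy, hNf, hNo, hN3, hgN⟩ := hr
  obtain ⟨α, hα⟩ : ∃ α, α = x ^ (e / g) := ⟨_, rfl⟩
  obtain ⟨β, hβ⟩ : ∃ β, β = z ^ (h / g) := ⟨_, rfl⟩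
  obtain ⟨γ, hγ⟩ : ∃ γ, γ = y ^ (f / N) := ⟨_, rfl⟩
  have hαg : α ^ g = x ^ e := by rw [hα, ← pow_mul, Nat.div_mul_cancel hge]
  have hβg : β ^ g = z ^ h := by rw [hβ, ← pow_mul, Nat.div_mul_cancel hgh]
  have hγN : γ ^ N = y ^ f := by rw [hγ, ← pow_mul, Nat.div_mul_cancel hNf]
  rw [← hα, ← hβ, ← hγ] at hyp
  have hα0 : 0 < α := by rw [hα]; positivity
  have hβ0 : 0 < β := by rw [hβ]; positivity
  have hγ0 : 0 < γ := by rw [hγ]; positivity
  -- the largest term
  have hmax : maxTerm g N (s * (α : ℤ)) (t * (β : ℤ)) (γ : ℤ) = ((c ^ k : ℕ) : ℝ) := by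
    have h1 : maxTerm g N (s * (α : ℤ)) (t * (β : ℤ)) (γ : ℤ) =
        max (((x ^ e : ℕ)) : ℝ) (max ((z ^ h : ℕ) : ℝ) ((y ^ f : ℕ) : ℝ)) := by
      rw [maxTerm, abs_unit hs1, abs_unit ht1, ← hαg, ← hβg, ← hγN]
      have : |(((γ : ℕ) : ℤ) : ℝ)| = (γ : ℝ) := by simp
      rw [this]
      push_cast
      rfl
    rw [h1]
    apply le_antisymm
    · refine max_le ?_ (max_le ?_ ?_) <;> exact_mod_cast (by assumption)
    · have h2 : c ^ k ∈ ({x ^ e, y ^ f, z ^ h} : Multiset ℕ) := by rw [hmul]; simp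
      simp only [Multiset.insert_eq_cons, Multiset.mem_cons, Multiset.mem_singleton] at h2
      rcases h2 with h2 | h2 | h2
      · rw [h2]; exact le_max_left _ _
      · rw [h2]; exact le_max_of_le_right (le_max_right _ _)
      · rw [h2]; exact le_max_of_le_right (le_max_left _ _)
  have hT := hT₀ g N _ _ _ hyp (by
    rw [natAbs_unit hs1, hmax, ← Nat.cast_pow, ← badPart_pow N α hg.ne_zero, hαg]
    exact hbad)
  rw [natAbs_unit hs1, natAbs_unit ht1] at hT
  have heq : a ^ m + b ^ n = c ^ k := hs.2.2.2.2.2.2.2.2.2.2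
  rw [Set.mem_iUnion₂]
  refine ⟨α, ⟨hα0, hT.1⟩, ?_⟩
  rw [Set.mem_iUnion₂]
  refine ⟨β, ⟨hβ0, hT.2⟩, ?_⟩
  rw [hF]
  refine ⟨?_, β, γ, g, g, N, hβ0, hγ0, hg.one_lt.le, hg.one_lt.le, ?_, ?_, ?_, ?_, ?_, ?_⟩
  · rw [hv]; exact heq
  · rw [one_mul]
    have : 1 < N := by omega
    exact_mod_cast this
  · rw [hα, hβ]; exact Nat.Coprime.pow _ _ hxz
  · rw [hα, hγ]; exact Nat.Coprime.pow _ _ hxy
  · rw [hβ, hγ]; exact Nat.Coprime.pow _ _ hzy
  · rw [sub_self, Real.rpow_zero, mul_one, Pool.Agent.K1H94.R.sPart_full (by positivity)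
      (by rw [Nat.primeFactors_pow _ hg.ne_zero])]
  · rw [hv, hαg, hβg, hγN]
    change ({a ^ m, b ^ n, c ^ k} : Multiset ℕ) = {x ^ e, z ^ h, y ^ f}
    rw [← hmul]
    exact congrArg (Multiset.cons _) (Multiset.cons_swap _ _ 0)

end Pool.Agent.Results.MP_2738db_nt.FirstCaseBadParts
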