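import Mathlib
import Pool.Agent.H79.FC.Roles

/-!
# The Fermat-Catalan equation: two exponents with a common odd prime divisor (first case), explicitly

Let `g` be an odd prime dividing the exponents of two bases `x`, `z` of a solution and not dividing
the third base `y`, and let `N ≥ 17` be an odd divisor, prime to `g`, of the exponent of `y` such that
`gcd (N, p (p - 1)) = 1` for every prime `p` dividing `x`. Then `y ≠ c`, so that the solution is of
the form `A ^ g + y ^ f = B ^ g`, and `B = A + 1`; and if `x ≥ 2`, then moreover `N < 10 ^ 16`.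

See `FirstCaseBadParts` for the method. In the case `u = ± 1` the `M`-adic estimate of linear forms in
two logarithms, `M = |X|`, is applied with explicit constants.
-/

set_option autoImplicit false

namespace Pool.Agent.Results.MP_2738db_nt.FirstCaseGoodBase

open Pool.Agent.H79.FC

theorem natAbs_unit {s : ℤ} (hs : s = 1 ∨ s = -1) (x : ℕ) : (s * (x : ℤ)).natAbs = x := by
  rcases hs with rfl | rfl <;> simp

theorem result : ∀ a b c m n k x e y f z h g N : ℕ, IsSolution a b c m n k →
    Roles a b c m n k x e y f z h g N → 17 ≤ N →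
    (∀ p : ℕ, p.Prime → p ∣ x → Nat.Coprime N (p * (p - 1))) →
    y ≠ c ∧ (z ^ (h / g) = x ^ (e / g) + 1 ∨ x ^ (e / g) = z ^ (h / g) + 1) ∧
      (x = 1 ∨ N < 10 ^ 16) := by
  intro a b c m n k x e y f z h g N hs hr hN hgood
  obtain ⟨hx, hy, hz, hxy, hxz, hzy, he, hf, hh, hmul, -, s, t, hs1, ht1, hyp, hyc⟩ :=
    hyp_of_roles hs hr
  obtain ⟨-, hg, hg2, hge, hgh, hgy, hNf, hNo, hN3, hgN⟩ := hr
  obtain ⟨α, hα⟩ : ∃ α, α = x ^ (e / g) := ⟨_, rfl⟩
  obtain ⟨β, hβ⟩ : ∃ β, β = z ^ (h / g) := ⟨_, rfl⟩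
  obtain ⟨γ, hγ⟩ : ∃ γ, γ = y ^ (f / N) := ⟨_, rfl⟩
  rw [← hα, ← hβ, ← hγ] at hyp
  rw [← hα, ← hβ]
  have hα0 : 0 < α := by rw [hα]; positivity
  have hβ0 : 0 < β := by rw [hβ]; positivity
  have hgood' : ∀ p : ℕ, p.Prime → p ∣ (s * (α : ℤ)).natAbs → Nat.Coprime N (p * (p - 1)) := by
    intro p hp hpd
    rw [natAbs_unit hs1, hα] at hpd
    exact hgood p hp (hp.dvd_of_dvd_pow hpd)
  have h1 := explicit hyp hN hgood'
  have hst : (s = -1 ∧ t = 1) → False := by
    rintro ⟨rfl, rfl⟩
    rw [one_mul, neg_one_mul, sub_neg_eq_add] at h1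
    omega
  refine ⟨fun h2 => hst (hyc h2), ?_, ?_⟩
  · rcases hs1 with rfl | rfl <;> rcases ht1 with rfl | rfl <;> omega
  · by_cases hx1 : x = 1
    · exact Or.inl hx1
    · right
      by_contra hN2
      push Not at hN2
      have hα2 : 2 ≤ α := by
        rw [hα]
        have h3 : e / g ≠ 0 := by
          have := Nat.div_pos (Nat.le_of_dvd he hge) hg.pos
          omega
        calc 2 ≤ x := by omega
          _ ≤ x ^ (e / g) := Nat.le_self_pow h3 x
      obtain ⟨u, hu⟩ := exists_u hyp.gp hyp.hodd hyp.eq hyp.cop hyp.gy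
      have hN0 : N ≠ 0 := by omega
      rcases lt_trichotomy u 0 with hu0 | hu0 | hu0
      · refine none_pos hyp.neg (u := -u) (by rw [hyp.hodd.neg_pow, hu]; ring) (by omega) hN2 ?_ ?_
        · rw [Int.natAbs_neg, natAbs_unit hs1]
          exact hα2
        · rw [Int.natAbs_neg]
          exact hgood'
      · rw [hu0, zero_pow hN0, add_zero] at hu
        have h4 := hyp.eq
        rw [hu] at h4
        have h5 : (γ : ℤ) ^ N = 0 := by linarith
        exact hyp.y0 (pow_eq_zero_iff hN0 |>.1 h5)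
      · exact none_pos hyp hu hu0 hN2 (by rw [natAbs_unit hs1]; exact hα2) hgood'

end Pool.Agent.Results.MP_2738db_nt.FirstCaseGoodBase
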