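import Mathlib
import Pool.Agent.H79.FC.Roles
import Pool.Agent.H79.FC.Good

/-!
# The Fermat-Catalan equation: two exponents with a common odd prime divisor (first case), large `N`

Let `g` be an odd prime dividing the exponents of two bases `x`, `z` of a solution and not dividing
the third base `y`, and let `N` be an odd divisor, prime to `g`, of the exponent of `y`. For every
`ε > 0` there is `N₀` such that, if `N ≥ N₀`, then the part of the term `x ^ e` composed of the primes
`p` with `gcd (N, p (p - 1)) = 1` is smaller than `H ^ ε`, where `H` is the largest term. There are no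
exceptional solutions. (The same holds for `z ^ h`, as `x` and `z` play the same part.)

Proof. Write the equation as `Z ^ g = X ^ g + Y ^ N`, `X ^ g = ± x ^ e`, `Z - X = u ^ N`, and let `M` be
the good part of `X`. Modulo `M ^ g` the `N`-th root `w` of `Z` near `u` exists, is unique, and
`Y = w ^ g`. Fix `s` and put `m = ⌊g / (s + 1)⌋`. Siegel's lemma gives a polynomial `F (ξ, η)` with small
integer coefficients, of degree `≤ s` in `η` and `< m` in `ξ`, such that `F (w ^ N, w ^ g)` vanishes to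
the order `s m` at `w = 1`. A zero estimate shows that one of the first `m + s` derivatives of `F` along
the curve `(w ^ N, w ^ g)`, homogenised with `u`, does not vanish at the integers `Z`, `Y`, `u`; it is
divisible by `M ^ ((s - 1) (m - 1))`. Comparing sizes, `T = max (|X|, |u| ^ N)` is at most a power of
`N`, so that `u = ± 1` for large `N`; and this is excluded by linear forms in two logarithms modulo
`M ^ g`.
-/

set_option autoImplicit false

namespace Pool.Agent.Results.MP_2738db_nt.FirstCaseGoodPart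

open Pool.Agent.H79.FC

theorem natAbs_unit {s : ℤ} (hs : s = 1 ∨ s = -1) (x : ℕ) : (s * (x : ℤ)).natAbs = x := by
  rcases hs with rfl | rfl <;> simp

theorem abs_unit {s : ℤ} (hs : s = 1 ∨ s = -1) (x : ℕ) : |((s * (x : ℤ) : ℤ) : ℝ)| = (x : ℝ) := by
  rcases hs with rfl | rfl <;> simp

theorem goodPart_pow (N x : ℕ) {g : ℕ} (hg : g ≠ 0) : goodPart N (x ^ g) = goodPart N x ^ g := by
  rw [goodPart, goodPart, Nat.primeFactors_pow _ hg, ← Finset.prod_pow]
  apply Finset.prod_congr rfl
  intro p _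
  rw [Nat.factorization_pow, Finsupp.smul_apply, smul_eq_mul, ← pow_mul, mul_comm]

theorem result : ∀ ε : ℝ, 0 < ε → ∃ N₀ : ℕ, ∀ a b c m n k x e y f z h g N : ℕ,
    IsSolution a b c m n k → Roles a b c m n k x e y f z h g N → N₀ ≤ N →
    (goodPart N (x ^ e) : ℝ) < ((c ^ k : ℕ) : ℝ) ^ ε := by
  intro ε hε
  obtain ⟨N₀, hN₀⟩ := GP.good hε
  refine ⟨N₀, ?_⟩
  intro a b c m n k x e y f z h g N hs hr hN
  obtain ⟨hx, hy, hz, hxy, hxz, hzy, he, hf, hh, hmul, ⟨hle1, hle2, hle3⟩, s, t, hs1, ht1, hyp, -⟩ :=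
    hyp_of_roles hs hr
  obtain ⟨-, hg, hg2, hge, hgh, hgy, hNf, hNo, hN3, hgN⟩ := hr
  by_cases hx1 : x = 1
  · have h1 : goodPart N (x ^ e) = 1 := by
      rw [hx1, one_pow, goodPart, Nat.primeFactors_one, Finset.filter_empty, Finset.prod_empty]
    rw [h1, Nat.cast_one]
    apply Real.one_lt_rpow _ hε
    obtain ⟨ha, hb, -, -, -, -, -, -, -, -, heq⟩ := hs
    have h2 : 0 < a ^ m := Nat.pow_pos ha
    have h3 : 0 < b ^ n := Nat.pow_pos hb
    have h4 : 1 < c ^ k := by omega
    exact_mod_cast h4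
  obtain ⟨α, hα⟩ : ∃ α, α = x ^ (e / g) := ⟨_, rfl⟩
  obtain ⟨β, hβ⟩ : ∃ β, β = z ^ (h / g) := ⟨_, rfl⟩
  obtain ⟨γ, hγ⟩ : ∃ γ, γ = y ^ (f / N) := ⟨_, rfl⟩
  have hαg : α ^ g = x ^ e := by rw [hα, ← pow_mul, Nat.div_mul_cancel hge]
  have hβg : β ^ g = z ^ h := by rw [hβ, ← pow_mul, Nat.div_mul_cancel hgh]
  have hγN : γ ^ N = y ^ f := by rw [hγ, ← pow_mul, Nat.div_mul_cancel hNf]
  rw [← hα, ← hβ, ← hγ] at hyp
  have hα2 : 2 ≤ α := by
    rw [hα]
    have h3 : e / g ≠ 0 := by
      have := Nat.div_pos (Nat.le_of_dvd he hge) hg.pos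
      omega
    calc 2 ≤ x := by omega
      _ ≤ x ^ (e / g) := Nat.le_self_pow h3 x
  -- the largest term
  have hmax : maxTerm g N (s * (α : ℤ)) (t * (β : ℤ)) (γ : ℤ) = ((c ^ k : ℕ) : ℝ) := by
    have h1 : maxTerm g N (s * (α : ℤ)) (t * (β : ℤ)) (γ : ℤ) =
        max (((x ^ e : ℕ)) : ℝ) (max ((z ^ h : ℕ) : ℝ) ((y ^ f : ℕ) : ℝ)) := by
      rw [maxTerm, abs_unit hs1, abs_unit ht1, ← hαg, ← hβg, ← hγN]
      have : |(((γ : ℕ) : ℤ) : ℝ)| = (γ : ℝ) := by simp
      rw [this]
      push_cast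
      rfl
    rw [h1]
    apply le_antisymm
    · refine max_le ?_ (max_le ?_ ?_) <;> exact_mod_cast (by assumption)
    · have h2 : c ^ k ∈ ({x ^ e, y ^ f, z ^ h} : Multiset ℕ) := by rw [hmul]; simp
      simp only [Multiset.insert_eq_cons, Multiset.mem_cons, Multiset.mem_singleton] at h2
      rcases h2 with h2 | h2 | h2
      · rw [h2]; exact le_max_left _ _
      · rw [h2]; exact le_max_of_le_right (le_max_right _ _)
      · rw [h2]; exact le_max_of_le_right (le_max_left _ _)
  have hT := hN₀ g N _ _ _ hyp hN (by rw [natAbs_unit hs1]; exact hα2)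
  rw [natAbs_unit hs1, hmax, ← Nat.cast_pow, ← goodPart_pow N α hg.ne_zero, hαg] at hT
  exact hT

end Pool.Agent.Results.MP_2738db_nt.FirstCaseGoodPart
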